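import Pool.Agent.Q61.KC7

/-!
Lines whose positions depend on the direction with critical fractional Sobolev regularity.

We work in `ℝ^(d+1) = ℝ^d × ℝ`; the line with slope `v : ℝ^d` (direction `(v, 1)`) and position
`F v` is `{(F v + t v, t) : t ∈ ℝ}`.  The position map `F` is continuous on a ball `B` of slopes,
and its `l`-th coordinate has finite Gagliardo energy of order `s l` and exponent `p l`, where
`∑ s l = d - 1` and `∑ 1 / p l = 1` (for instance `s l = 1 - 1/d`, `p l = d`).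
-/

open MeasureTheory Metric Set
open scoped ENNReal

namespace Pool.Agent.Results.MP_b1773a_an.CriticalEnergySelections

/-- The Gagliardo (Slobodeckij) energy `∬_{Q × Q} |f x - f y|^p / ‖x - y‖^(d + s p)` of a real
function of `d` variables (`‖·‖` is the sup norm of `ℝ^d`). -/
noncomputable def energy {d : ℕ} (Q : Set (Fin d → ℝ)) (s p : ℝ) (f : (Fin d → ℝ) → ℝ) : ℝ≥0∞ :=
  ∫⁻ x in Q, ∫⁻ y in Q, ENNReal.ofReal (|f x - f y| ^ p / ‖x - y‖ ^ ((d : ℝ) + s * p))

/-- The slice at height `t` of the union of the lines with slopes in `Q`. -/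
def slice {d : ℕ} (Q : Set (Fin d → ℝ)) (F : (Fin d → ℝ) → (Fin d → ℝ)) (t : ℝ) :
    Set (Fin d → ℝ) :=
  (fun v => F v + t • v) '' Q

theorem result (d : ℕ) (s p : Fin d → ℝ) (hs0 : ∀ l, 0 < s l) (hs1 : ∀ l, s l < 1)
    (hs : ∑ l, s l = (d : ℝ) - 1) (hp1 : ∀ l, 1 ≤ p l) (hp : ∑ l, (p l)⁻¹ = 1)
    (v₀ : Fin d → ℝ) (r : ℝ) (hr : 0 < r) :
    (∀ F : (Fin d → ℝ) → (Fin d → ℝ), ContinuousOn F (ball v₀ r) →
      (∀ l, energy (ball v₀ r) (s l) (p l) (fun v => F v l) ≠ ⊤) →
      -- (1) all but at most `d` horizontal slices of the union of the lines are not null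
      ({t : ℝ | volume (slice (ball v₀ r) F t) = 0}.Finite ∧
        {t : ℝ | volume (slice (ball v₀ r) F t) = 0}.ncard ≤ d) ∧
      -- (2) sets containing the lines over a set of heights that is not null
      (∀ (K : Set ((Fin d → ℝ) × ℝ)) (A : Set ℝ), volume A ≠ 0 →
        (∀ t ∈ A, ∀ v ∈ ball v₀ r, (F v + t • v, t) ∈ K) → 0 < volume K) ∧
      -- (3) closed sets containing some segment of each of the lines
      (∀ K : Set ((Fin d → ℝ) × ℝ), IsClosed K →
        (∀ v ∈ ball v₀ r, ∃ a b : ℝ, a < b ∧ ∀ t ∈ Icc a b, (F v + t • v, t) ∈ K) →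
        0 < volume K)) ∧
    -- (4) the number `d` in (1) is optimal
    ∃ F : (Fin d → ℝ) → (Fin d → ℝ), Continuous F ∧
      (∀ l, energy (ball v₀ r) (s l) (p l) (fun v => F v l) ≠ ⊤) ∧
      {t : ℝ | volume (slice (ball v₀ r) F t) = 0}.ncard = d := by
  have hd : 1 ≤ d := by
    rcases Nat.eq_zero_or_pos d with h | h
    · subst h
      simp at hp
    · exact h
  refine ⟨fun F hF hE => ⟨?_, fun K A hA hK => ?_, fun K hKc hK => ?_⟩, ?_⟩
  · exact Q61.KC.exc_set hd hr hF hs0 hs1 hp1 hp hs hE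
  · exact Q61.KC.pos_of_heights hd hr hF hs0 hs1 hp1 hp hs hE hA hK
  · exact Q61.KC.pos_of_segments hd hr hF hs0 hs1 hp1 hp hs hE hKc hK
  · exact Q61.KC.exc_sharp hd hr hs0 hs1 hp1 hp hs

end Pool.Agent.Results.MP_b1773a_an.CriticalEnergySelections
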