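import Pool.Agent.Q85.KZ.G

set_option autoImplicit false

/-!
# Kakeya sets of low zoom complexity

If a closed set of `ℝ^(n+1)` contains one segment in a generic direction, and if its zooms into the cubes
of side `b^(-m)` of the `b`-adic grid are at most `A b^(h m)` different sets for every `m`, then its
Hausdorff dimension is at least `(n+1) - h (n+1)^3 / n`. In particular a Kakeya set whose number of
different zooms grows subexponentially has full Hausdorff dimension, in every dimension.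

Along a segment of a generic direction the digits between the levels `m` and `(1+1/n) m` are almost
equidistributed (the return times of the cell of side `b^(-m/n)` are controlled by the simultaneous
rational approximation of the direction), so a popular zoom of level `m` contains almost all of its
sub-cubes of relative level `m/n` with one and the same zoom; iterating along a geometric sequence of
levels produces a Cantor subset of large dimension.
-/

namespace Pool.Agent.Results.MP_b1773a_an.LowZoomComplexity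

open MeasureTheory Set
open scoped ENNReal

/-- The zoom of `K` into the closed cube number `v` of side `b^(-m)`: the points `y` of `[0,1]^d` such
that the point `b^(-m) (v + y)` lies in `K`. -/
def gridZoom {d : ℕ} (b m : ℕ) (v : Fin d → ℤ) (K : Set (EuclideanSpace ℝ (Fin d))) :
    Set (Fin d → ℝ) :=
  {y | (∀ i, 0 ≤ y i ∧ y i ≤ 1) ∧
    WithLp.toLp 2 (fun i => ((v i : ℝ) + y i) / (b:ℝ) ^ m) ∈ K}

/-- The set `K` has, at every level `m`, at most `A b^(h m)` different zooms. -/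
def FewZooms {d : ℕ} (b : ℕ) (A h : ℝ) (K : Set (EuclideanSpace ℝ (Fin d))) : Prop :=
  ∀ m : ℕ, (Set.range fun v : Fin d → ℤ => gridZoom b m v K).Finite ∧
    ((Set.range fun v : Fin d → ℤ => gridZoom b m v K).ncard : ℝ) ≤ A * (b:ℝ) ^ (h * m)

/-- The vector `(1, α)`. -/
noncomputable def slope {n : ℕ} (α : Fin n → ℝ) : EuclideanSpace ℝ (Fin (n + 1)) :=
  WithLp.toLp 2 (Fin.cons 1 α : Fin (n + 1) → ℝ)

/-- `K` contains a segment of positive length in the direction of `w`. -/
def HasSegment {d : ℕ} (w : EuclideanSpace ℝ (Fin d)) (K : Set (EuclideanSpace ℝ (Fin d))) : Prop :=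
  ∃ p : EuclideanSpace ℝ (Fin d), ∃ τ : ℝ, 0 < τ ∧ ∀ t ∈ Icc (0:ℝ) τ, p + t • w ∈ K

/-- `K` contains a unit segment in every direction. -/
def HasUnitSegments {d : ℕ} (K : Set (EuclideanSpace ℝ (Fin d))) : Prop :=
  ∀ ω : EuclideanSpace ℝ (Fin d), ‖ω‖ = 1 → ∃ a : EuclideanSpace ℝ (Fin d),
    ∀ t ∈ Icc (0:ℝ) 1, a + t • ω ∈ K

theorem hasSegment_of_units {n : ℕ} {K : Set (EuclideanSpace ℝ (Fin (n + 1)))}
    (hK : HasUnitSegments K) (α : Fin n → ℝ) : HasSegment (slope α) K := by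
  have hne : slope α ≠ 0 := by
    intro h
    have h1 : (slope α) 0 = (0 : EuclideanSpace ℝ (Fin (n + 1))) 0 := by rw [h]
    simp [slope] at h1
  have hpos : 0 < ‖slope α‖ := norm_pos_iff.2 hne
  obtain ⟨a, ha⟩ := hK ((‖slope α‖)⁻¹ • slope α) (by
    rw [norm_smul, norm_inv, norm_norm, inv_mul_cancel₀ hpos.ne'])
  refine ⟨a, (‖slope α‖)⁻¹, inv_pos.2 hpos, ?_⟩
  intro t ht
  have h1 := ha (t * ‖slope α‖) ⟨mul_nonneg ht.1 hpos.le, by
    have := mul_le_mul_of_nonneg_right ht.2 hpos.le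
    rwa [inv_mul_cancel₀ hpos.ne'] at this⟩
  rw [smul_smul] at h1
  have h2 : t * ‖slope α‖ * (‖slope α‖)⁻¹ = t := by field_simp
  rwa [h2] at h1

theorem core {n : ℕ} (hn : 0 < n) : ∀ᵐ α : Fin n → ℝ,
    ∀ (K : Set (EuclideanSpace ℝ (Fin (n + 1)))) (b : ℕ) (A h : ℝ), 2 ≤ b → 0 ≤ h → IsClosed K →
      FewZooms b A h K → HasSegment (slope α) K →
        ENNReal.ofReal (((n:ℝ) + 1) - h * ((n:ℝ) + 1) ^ 3 / n) ≤ dimH K := by
  filter_upwards [Q85.KZ.ae_generic hn] with α hα K b A h hb hh hK hZ hseg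
  obtain ⟨p, τ, hτ, hseg⟩ := hseg
  set e := (EuclideanSpace.equiv (Fin (n + 1)) ℝ).symm with he
  have hdim : dimH (e ⁻¹' K) = dimH K := e.dimH_preimage K
  rw [← hdim]
  refine Q85.KZ.main_one hn hb hh (hK.preimage e.continuous) (A := A) ?_ α hα
    (fun i => p i) hτ ?_
  · intro m
    obtain ⟨h1, h2⟩ := hZ m
    refine ⟨h1.toFinset, ?_, ?_⟩
    · rw [← Set.ncard_eq_toFinset_card _ h1]
      exact h2
    · intro v
      rw [Set.Finite.mem_toFinset]
      exact ⟨v, rfl⟩
  · intro t ht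
    have h3 := hseg t ht
    show e _ ∈ K
    have h4 : e (fun i => p i + t * Q85.KZ.dir α i) = p + t • slope α := rfl
    rw [h4]
    exact h3

/-- **Kakeya sets of low zoom complexity have large Hausdorff dimension.** -/
theorem result (n : ℕ) (hn : 0 < n) :
    -- one segment in a generic direction is enough
    (∀ᵐ α : Fin n → ℝ, ∀ (K : Set (EuclideanSpace ℝ (Fin (n + 1)))) (b : ℕ) (A h : ℝ),
      2 ≤ b → 0 ≤ h → IsClosed K → FewZooms b A h K → HasSegment (slope α) K →
        ENNReal.ofReal (((n:ℝ) + 1) - h * ((n:ℝ) + 1) ^ 3 / n) ≤ dimH K) ∧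
    -- Kakeya sets
    (∀ (K : Set (EuclideanSpace ℝ (Fin (n + 1)))) (b : ℕ) (A h : ℝ), 2 ≤ b → 0 ≤ h →
      IsClosed K → HasUnitSegments K → FewZooms b A h K →
        ENNReal.ofReal (((n:ℝ) + 1) - h * ((n:ℝ) + 1) ^ 3 / n) ≤ dimH K) ∧
    -- Kakeya sets of subexponential complexity
    (∀ (K : Set (EuclideanSpace ℝ (Fin (n + 1)))) (b : ℕ), 2 ≤ b → IsClosed K →
      HasUnitSegments K → (∀ h : ℝ, 0 < h → ∃ A : ℝ, FewZooms b A h K) →
        dimH K = ((n + 1 : ℕ) : ℝ≥0∞)) := by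
  have hn0 : (0:ℝ) < n := by exact_mod_cast hn
  have h2 : ∀ (K : Set (EuclideanSpace ℝ (Fin (n + 1)))) (b : ℕ) (A h : ℝ), 2 ≤ b → 0 ≤ h →
      IsClosed K → HasUnitSegments K → FewZooms b A h K →
        ENNReal.ofReal (((n:ℝ) + 1) - h * ((n:ℝ) + 1) ^ 3 / n) ≤ dimH K := by
    intro K b A h hb hh hK hU hZ
    obtain ⟨α, hα⟩ := (core hn).exists
    exact hα K b A h hb hh hK hZ (hasSegment_of_units hU α)
  refine ⟨core hn, h2, ?_⟩
  intro K b hb hK hU hZ
  apply le_antisymm
  · refine (dimH_mono (subset_univ K)).trans ?_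
    rw [Real.dimH_univ_eq_finrank, finrank_euclideanSpace, Fintype.card_fin]
  · have hcont : Continuous fun h : ℝ => ((n:ℝ) + 1) - h * ((n:ℝ) + 1) ^ 3 / n := by fun_prop
    have h3 : Filter.Tendsto (fun h : ℝ => ENNReal.ofReal (((n:ℝ) + 1) - h * ((n:ℝ) + 1) ^ 3 / n))
        (nhdsWithin 0 (Ioi 0)) (nhds (ENNReal.ofReal (((n:ℝ) + 1) - 0 * ((n:ℝ) + 1) ^ 3 / n))) :=
      (ENNReal.continuous_ofReal.comp hcont).continuousAt.mono_left nhdsWithin_le_nhds
    have h4 : ENNReal.ofReal (((n:ℝ) + 1) - 0 * ((n:ℝ) + 1) ^ 3 / n) = ((n + 1 : ℕ) : ℝ≥0∞) := by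
      rw [zero_mul, zero_div, sub_zero, ← ENNReal.ofReal_natCast]
      push_cast
      rfl
    rw [h4] at h3
    refine le_of_tendsto h3 ?_
    filter_upwards [self_mem_nhdsWithin] with h hh
    obtain ⟨A, hA⟩ := hZ h hh
    exact h2 K b A h hb (le_of_lt hh) hK hU hA

end Pool.Agent.Results.MP_b1773a_an.LowZoomComplexity
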