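import Pool.Agent.Q71.KR.Main

/-!
# MP_b1773a_an: Kakeya sets whose set of lines has a rectifiable part

A Kakeya set `K ⊆ ℝ^n`, `n = d + 1`, determines (by a choice) a set of lines, one in each direction; a
line is recorded as a pair (point, direction) in `ℝ^n × ℝ^n`.  If the set of lines has a piece which is
a Lipschitz image of a subset of `ℝ^d` and contains lines in a non-null set of directions, then `K` is
not null.  So the set of lines of a null Kakeya set is purely `d`-unrectifiable as far as the directions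
can see.  The same condition gives the largest possible dimension `n - 1 + σ` for the union of subsets of
dimension `σ` of the lines (Furstenberg sets).
-/

set_option autoImplicit false

open MeasureTheory Set Metric
open scoped NNReal ENNReal

namespace Pool.Agent.Results.MP_b1773a_an.RectifiableLines

open Q71.KR (pt)

/-- Euclidean space `ℝ^n`. -/
abbrev E (n : ℕ) : Type := EuclideanSpace ℝ (Fin n)

/-- Lipschitz maps from `ℝ^d` to the space `ℝ^n × ℝ^n` of pairs (point, direction). -/
def LipMap (d n : ℕ) (P : E d → E n × E n) : Prop := ∃ L : ℝ≥0, LipschitzWith L P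

/-- The line `x + ℝ e` meets `K` in a set of positive length. -/
def PosLength {n : ℕ} (K : Set (E n)) (x e : E n) : Prop := 0 < volume {s : ℝ | x + s • e ∈ K}

/-- The line `x + ℝ e` meets `K` in a set of Hausdorff dimension at least `σ`. -/
def DimLength {n : ℕ} (σ : ℝ) (K : Set (E n)) (x e : E n) : Prop :=
  ENNReal.ofReal σ ≤ dimH {s : ℝ | x + s • e ∈ K}

/-- Positive Lebesgue measure and Hausdorff dimension `n`. -/
def Full {n : ℕ} (K : Set (E n)) : Prop := 0 < volume K ∧ dimH K = (n : ℝ≥0∞)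

/-- The unit sphere of `ℝ^n`. -/
abbrev Sph (n : ℕ) : Type := sphere (0 : E n) 1

/-- A set of directions is null for the surface measure. -/
def NullDir {n : ℕ} (A : Set (Sph n)) : Prop := (volume : Measure (E n)).toSphere A = 0

/-- The direction as a vector. -/
def vec {n : ℕ} (ω : Sph n) : E n := ω

/-- The lines `x(ω) + ℝ ω`, `ω ∈ S`, have a rectifiable part: for some Lipschitz map `P` from `ℝ^d` to
the space `ℝ^(d+1) × ℝ^(d+1)` of pairs (point, direction), the directions `ω ∈ S` for which
`(x(ω), ω)` is a value of `P` do not form a null set of the unit sphere. -/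
def HasRectifiablePart (d : ℕ) (S : Set (Sph (d + 1))) (x : Sph (d + 1) → E (d + 1)) : Prop :=
  ∃ P : E d → E (d + 1) × E (d + 1), LipMap d (d + 1) P ∧
    ¬ NullDir {ω : Sph (d + 1) | ω ∈ S ∧ ∃ y, P y = (x ω, vec ω)}

/-- The set of the pairs `(x(ω), ω)`, `ω ∈ S`, is covered by countably many Lipschitz images of
`ℝ^d`. -/
def CountablyRectifiable (d : ℕ) (S : Set (Sph (d + 1))) (x : Sph (d + 1) → E (d + 1)) : Prop :=
  ∃ P : ℕ → E d → E (d + 1) × E (d + 1), (∀ j, LipMap d (d + 1) (P j)) ∧
    ∀ ω ∈ S, ∃ j y, P j y = (x ω, vec ω)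

/-- One-sided Lipschitz maps: `⟪a(v) - a(w), v - w⟫ ≥ - C |v - w|²` for `v, w ∈ V`. -/
def OneSidedLipschitz {d : ℕ} (V : Set (E d)) (a : E d → E d) : Prop :=
  ∃ C : ℝ, ∀ v ∈ V, ∀ w ∈ V, -(C * ‖v - w‖ ^ 2) ≤ inner ℝ (a v - a w) (v - w)

/-- **Kakeya and Furstenberg sets with a rectifiable set of lines.** Let `n = d + 1`.

(1) If the lines `x(ω) + ℝ ω`, `ω ∈ S`, have a rectifiable part and `K ⊆ ℝ^n` meets each of them in a set of
positive length, then `K` has positive measure (and Hausdorff dimension `n`).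

(2) If they have a rectifiable part and `K` meets each of them in a set of Hausdorff dimension at least
`σ > 0`, then the Hausdorff dimension of `K` is at least `n - 1 + σ`.

(3) If `S` is not null and the set of the pairs `(x(ω), ω)`, `ω ∈ S`, is covered by countably many Lipschitz
images of `ℝ^d`, then the lines have a rectifiable part.

(4) One-sided Lipschitz families. Let `V ⊆ ℝ^d` be a non-null set of slopes and let `a : ℝ^d → ℝ^d` satisfy
`⟪a(v) - a(w), v - w⟫ ≥ - C |v - w|²` on `V` (for instance `a` monotone; no regularity or measurability is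
assumed). If `K ⊆ ℝ^n` meets each line `{(s, a(v) + s v) : s ∈ ℝ}`, `v ∈ V`, in a set of positive length,
then it has positive measure; if in sets of dimension at least `σ > 0`, then its dimension is at least
`n - 1 + σ`. -/
theorem result (d : ℕ) :
    (∀ (S : Set (Sph (d + 1))) (x : Sph (d + 1) → E (d + 1)) (K : Set (E (d + 1))),
      HasRectifiablePart d S x →
      ((∀ ω ∈ S, PosLength K (x ω) (vec ω)) → Full K) ∧
      ∀ σ : ℝ, 0 < σ → (∀ ω ∈ S, DimLength σ K (x ω) (vec ω)) →
        (d : ℝ≥0∞) + ENNReal.ofReal σ ≤ dimH K) ∧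
    (∀ (S : Set (Sph (d + 1))) (x : Sph (d + 1) → E (d + 1)), ¬ NullDir S →
      CountablyRectifiable d S x → HasRectifiablePart d S x) ∧
    (∀ (V : Set (E d)) (a : E d → E d) (K : Set (E (d + 1))), volume V ≠ 0 →
      OneSidedLipschitz V a →
      ((∀ v ∈ V, PosLength K (pt 0 (a v)) (pt 1 v)) → Full K) ∧
      ∀ σ : ℝ, 0 < σ → (∀ v ∈ V, DimLength σ K (pt 0 (a v)) (pt 1 v)) →
        (d : ℝ≥0∞) + ENNReal.ofReal σ ≤ dimH K) := by
  have hfull : ∀ K : Set (E (d + 1)), 0 < volume K → dimH K = ((d + 1 : ℕ) : ℝ≥0∞) := by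
    intro K h
    refine le_antisymm ?_ ?_
    · refine (dimH_mono (subset_univ K)).trans ?_
      rw [Real.dimH_univ_eq_finrank]
      simp
    · have h3 : Measure.IsAddHaarMeasure
          (Measure.hausdorffMeasure (((d + 1 : ℕ) : ℝ)) : Measure (E (d + 1))) := by
        simpa using MeasureTheory.isAddHaarMeasure_hausdorffMeasure (E := E (d + 1))
      have h1 : (Measure.hausdorffMeasure (((d + 1 : ℕ) : ℝ)) : Measure (E (d + 1))) K ≠ 0 := by
        intro h0
        exact h.ne' ((Measure.absolutelyContinuous_isAddHaarMeasure volume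
          (Measure.hausdorffMeasure (((d + 1 : ℕ) : ℝ)) : Measure (E (d + 1)))) h0)
      have h2 := le_dimH_of_hausdorffMeasure_ne_zero (s := K) (d := ((d + 1 : ℕ) : ℝ≥0)) (by
        simpa using h1)
      simpa using h2
  refine ⟨?_, ?_, ?_⟩
  · rintro S x K ⟨P, ⟨L, hP⟩, hpos⟩
    set Λ : Set (E (d + 1) × E (d + 1)) := {p | ∃ ω ∈ S, p = (x ω, (ω : E (d + 1)))} with hΛ
    have hcone : volume (Q71.KR.cone Λ P) ≠ 0 := by
      intro h
      apply hpos
      refine Q71.KR.toSphere_null (measure_mono_null ?_ h)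
      rintro w ⟨ω, ⟨hω, y, hy⟩, r, hr, rfl⟩
      exact ⟨y, ⟨ω, hω, hy⟩, r, hr, by rw [hy]; rfl⟩
    refine ⟨fun h => ?_, fun σ hσ h => ?_⟩
    · have hK : 0 < volume K := by
        rw [pos_iff_ne_zero]
        intro h0
        refine hcone (Q71.KR.core_vol hP ?_ h0)
        rintro p ⟨ω, hω, rfl⟩
        exact h ω hω
      exact ⟨hK, hfull K hK⟩
    · refine Q71.KR.core_haus hP hσ ?_ hcone
      rintro p ⟨ω, hω, rfl⟩
      exact h ω hω
  · rintro S x hS ⟨P, hP, hcov⟩
    by_contra hcon
    have h1 : ∀ j, (volume : Measure (E (d + 1))).toSphere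
        {ω | ω ∈ S ∧ ∃ y, P j y = (x ω, (ω : E (d + 1)))} = 0 := by
      intro j
      by_contra h
      exact hcon ⟨P j, hP j, h⟩
    refine hS (measure_mono_null ?_ (measure_iUnion_null h1))
    intro ω hω
    obtain ⟨j, y, hy⟩ := hcov ω hω
    exact mem_iUnion.2 ⟨j, hω, y, hy⟩
  · rintro V a K hV ⟨C, ha⟩
    obtain ⟨L, P, hP, hPV⟩ := Q71.KR.exists_param ha
    set Λ : Set (E (d + 1) × E (d + 1)) := {p | ∃ v ∈ V, p = (pt 0 (a v), pt 1 v)} with hΛ
    have hcone : volume (Q71.KR.cone Λ P) ≠ 0 := by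
      intro h
      apply hV
      refine Q71.KR.slopes_null (measure_mono_null ?_ h)
      rintro w ⟨v, hv, r, hr, rfl⟩
      obtain ⟨y, hy⟩ := hPV v hv
      exact ⟨y, ⟨v, hv, hy⟩, r, hr, by rw [hy]⟩
    refine ⟨fun h => ?_, fun σ hσ h => ?_⟩
    · have hK : 0 < volume K := by
        rw [pos_iff_ne_zero]
        intro h0
        refine hcone (Q71.KR.core_vol hP ?_ h0)
        rintro p ⟨v, hv, rfl⟩
        exact h v hv
      exact ⟨hK, hfull K hK⟩
    · refine Q71.KR.core_haus hP hσ ?_ hcone
      rintro p ⟨v, hv, rfl⟩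
      exact h v hv

end Pool.Agent.Results.MP_b1773a_an.RectifiableLines
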