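import Pool.Agent.Q93.TypK7

/-!
# MP_b1773a: typical Kakeya sets have the smallest dimensions of all Kakeya sets

Let `Ω` be a nonempty closed set of directions in `ℝ^n` (for Kakeya sets: `Ω` is the unit sphere).
The compact sets which contain a unit segment in every direction of `Ω` form, with the Hausdorff
distance, a complete metric space `KSpace Ω`. We show that its typical elements (in the sense of Baire
category) are extremal, also among non-compact sets:

* the typical compact set `K` satisfies `dim_H K ≤ dim_H K'` for *every* set `K'`, compact or not,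
  measurable or not, which contains a unit segment in every direction of `Ω`, and the same for the
  lower Minkowski dimension and all bounded sets `K'`; in particular both infima are attained, by one
  and the same compact set;
* if `δ k → 0` and `ψ k → ∞`, then for the typical set `K` the volume of the `δ k`-neighbourhood is,
  for infinitely many `k`, at most `ψ k` times the smallest possible volume (the infimum over the
  space);
* zero-one law: for every gauge function `h` either the `h`-contents of all sets (compact or not)
  with unit segments in the directions of `Ω` are bounded below by one positive constant, or the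
  typical compact set has `h`-content zero; the same for Hausdorff measures;
* the Hausdorff form of the Kakeya conjecture (Q1) is equivalent to its form for arbitrary sets, to its
  generic validity, and to the existence of uniform lower bounds for the `s`-dimensional contents of
  arbitrary sets with unit segments in all directions, for every `s < n`; in the same way for the
  Minkowski form (Q2).

Proof. The space is complete since the segments of a convergent sequence of sets subconverge. Given `K`
and `K₀` in the space and `η > 0`, the finite union of the pieces, near `K`, of translates of `K₀`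
(by `b - z`, `z` in a fine lattice, `b` the starting points of the segments of `K` in a finite net of
directions) and of a finite set of points is in the space and at distance `≤ η` from `K`. The overlap
of the translates is bounded by a number which depends on `K` and `η` but not on `K₀`. So the cost of
the new set is at most a constant times the cost of `K₀`, and the sets of small cost, which are open,
are dense. An open set with unit segments in all directions of `Ω` contains a compact one, by the
compactness of `Ω`; this gives the comparison with arbitrary sets.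
-/

open MeasureTheory Metric Set Filter Topology TopologicalSpace
open scoped ENNReal NNReal

namespace Pool.Agent.Results.MP_b1773a_an.TypicalKakeyaSets

open Pool.Agent.Q93.TypK

/-- Typical compact sets have the smallest Hausdorff dimension of all sets, and the smallest lower
Minkowski dimension of all bounded sets, with unit segments in the directions of `Ω`. -/
def TypicalDimensionsMinimal {n : ℕ} (Ω : Set (E n)) : Prop :=
  ∀ᶠ K : KSpace Ω in residual (KSpace Ω), ∀ K' : Set (E n), HasSegments Ω K' →
    dimH (K.1 : Set (E n)) ≤ dimH K' ∧
    (Bornology.IsBounded K' → lowerMinkowski (K.1 : Set (E n)) ≤ lowerMinkowski K')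

/-- Typical sets are nearly optimal at infinitely many of given scales. -/
def TypicalVolumesMinimal {n : ℕ} (Ω : Set (E n)) : Prop :=
  ∀ δ ψ : ℕ → ℝ, (∀ k, 0 < δ k) → Tendsto δ atTop (𝓝 0) → Tendsto ψ atTop atTop →
    ∀ᶠ K : KSpace Ω in residual (KSpace Ω), ∃ᶠ k in atTop,
      volume (cthickening (δ k) (K.1 : Set (E n))) < ENNReal.ofReal (ψ k) *
        ⨅ K' : KSpace Ω, volume (cthickening (δ k) (K'.1 : Set (E n)))

/-- Either the contents of all sets have a common positive lower bound, or typical compact sets have
content zero, for every nonnegative gauge function that is small somewhere. -/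
def ContentZeroOne {n : ℕ} (Ω : Set (E n)) : Prop :=
  ∀ h : ℝ → ℝ, (∀ r, 0 < r → r ≤ 1 → 0 ≤ h r) → (∀ ε > 0, ∃ r, 0 < r ∧ r ≤ 1 ∧ h r < ε) →
    (∃ c : ℝ≥0∞, 0 < c ∧ ∀ K : Set (E n), HasSegments Ω K → c ≤ gcontent h K) ∨
    ∀ᶠ K : KSpace Ω in residual (KSpace Ω), gcontent h (K.1 : Set (E n)) = 0

/-- Either the `s`-dimensional contents of all sets have a common positive lower bound, or typical
compact sets have `s`-dimensional Hausdorff measure zero. -/
def HausdorffZeroOne {n : ℕ} (Ω : Set (E n)) : Prop :=
  ∀ s : ℝ, 0 < s →
    (∃ c : ℝ≥0∞, 0 < c ∧ ∀ K : Set (E n), HasSegments Ω K → c ≤ gcontent (fun r => r ^ s) K) ∨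
    ∀ᶠ K : KSpace Ω in residual (KSpace Ω), μH[s] (K.1 : Set (E n)) = 0

/-- All compact sets have full Hausdorff dimension. -/
def FullHausdorff {n : ℕ} (Ω : Set (E n)) : Prop :=
  ∀ K : KSpace Ω, dimH (K.1 : Set (E n)) = n

/-- All sets, compact or not, have full Hausdorff dimension. -/
def FullHausdorffArbitrary {n : ℕ} (Ω : Set (E n)) : Prop :=
  ∀ K : Set (E n), HasSegments Ω K → dimH K = n

/-- The compact sets of full Hausdorff dimension are not meagre. -/
def GenericHausdorff {n : ℕ} (Ω : Set (E n)) : Prop :=
  ¬ IsMeagre {K : KSpace Ω | dimH (K.1 : Set (E n)) = n}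

/-- For every `s < n` the contents of all sets have a common positive lower bound. -/
def UniformHausdorff {n : ℕ} (Ω : Set (E n)) : Prop :=
  ∀ s : ℝ, 0 < s → s < n → ∃ c : ℝ≥0∞, 0 < c ∧
    ∀ K : Set (E n), HasSegments Ω K → c ≤ gcontent (fun r => r ^ s) K

/-- All compact sets have full lower Minkowski dimension. -/
def FullMinkowski {n : ℕ} (Ω : Set (E n)) : Prop :=
  ∀ K : KSpace Ω, lowerMinkowski (K.1 : Set (E n)) = n

/-- The compact sets of full lower Minkowski dimension are not meagre. -/
def GenericMinkowski {n : ℕ} (Ω : Set (E n)) : Prop :=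
  ¬ IsMeagre {K : KSpace Ω | lowerMinkowski (K.1 : Set (E n)) = n}

/-- `|N_δ K| ≥ c δ^ε` for all sets, with `c` depending on `ε` only. -/
def UniformMinkowski {n : ℕ} (Ω : Set (E n)) : Prop :=
  ∀ ε : ℝ, 0 < ε → ∃ c : ℝ, 0 < c ∧ ∀ δ : ℝ, 0 < δ → δ ≤ 1 → ∀ K : Set (E n),
    HasSegments Ω K → ENNReal.ofReal (c * δ ^ ε) ≤ volume (cthickening δ K)

/-- **Typical Kakeya sets are extremal.** -/
theorem result (n : ℕ) (Ω : Set (E n)) (hΩ : Ω ⊆ sphere 0 1) (hcl : IsClosed Ω)
    (hne : Ω.Nonempty) :
    (CompleteSpace (KSpace Ω) ∧ Nonempty (KSpace Ω)) ∧
    TypicalDimensionsMinimal Ω ∧ TypicalVolumesMinimal Ω ∧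
    ContentZeroOne Ω ∧ HausdorffZeroOne Ω ∧
    [FullHausdorff Ω, FullHausdorffArbitrary Ω, GenericHausdorff Ω, UniformHausdorff Ω].TFAE ∧
    [FullMinkowski Ω, GenericMinkowski Ω, UniformMinkowski Ω].TFAE := by
  have hb : Bornology.IsBounded Ω := isBounded_sphere.subset hΩ
  have hc : IsCompact Ω := (isCompact_sphere (0 : E n) 1).of_isClosed_subset hcl hΩ
  refine ⟨⟨inferInstance, kspace_nonempty hb⟩, ?_, ?_, ?_, ?_, ?_, ?_⟩
  · unfold TypicalDimensionsMinimal
    filter_upwards [typical_dimH' hc hne, typical_mink' hc hne] with K h1 h2 K' hK'
    exact ⟨h1 K' hK', fun hb' => h2 K' hb' hK'⟩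
  · intro δ ψ hδ hδ0 hψ
    exact typical_volume hb hδ hδ0 hψ
  · intro h hh hs
    exact gcontent_zero_one hc hne hh hs
  · intro s hs
    exact hausdorff_zero_one hc hne hs
  · tfae_have 1 ↔ 2 := dimH_arbitrary hc hne
    tfae_have 1 ↔ 3 := dimH_generic hb
    tfae_have 1 ↔ 4 := dimH_uniform' hc hne
    tfae_finish
  · tfae_have 1 ↔ 2 := mink_generic hb
    tfae_have 1 ↔ 3 := mink_uniform' hc hne
    tfae_finish

end Pool.Agent.Results.MP_b1773a_an.TypicalKakeyaSets
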